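import Pool.Agent.Y666.SP.Stm

/-! Project SP: monotone subsequences. -/

set_option autoImplicit false

namespace Pool.Agent.Y672.SP

open Pool.Agent.Y666.SP

theorem ram : S_RAM := by
  intro α _ w hw s hs
  obtain ⟨g, h | h⟩ := exists_increasing_or_nonincreasing_subseq (· < ·) s
  · exact ⟨g, g.strictMono, Or.inl fun m n hmn => h m n hmn⟩
  · obtain ⟨g', h' | h'⟩ := exists_increasing_or_nonincreasing_subseq (· > ·) (s ∘ g)
    · exact ⟨g ∘ g', g.strictMono.comp g'.strictMono, Or.inr fun m n hmn => h' m n hmn⟩
    · exfalso
      classical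
      have hinj : Function.Injective fun n => s (g (g' n)) :=
        hs.comp (g.injective.comp g'.injective)
      have key : ∀ i j, i ≠ j → ¬ s (g (g' i)) ≤ s (g (g' j)) := by
        intro i j hij hle
        have hlt : s (g (g' i)) < s (g (g' j)) :=
          lt_of_le_of_ne hle fun e => hij (hinj e)
        rcases lt_or_gt_of_ne hij with h1 | h1
        · exact h _ _ (g'.strictMono h1) hlt
        · exact h' _ _ h1 hlt
      have h1 := hw ((Finset.range (w + 1)).image fun n => s (g (g' n))) (by
        intro a ha b hb hab hle
        rw [Finset.mem_coe, Finset.mem_image] at ha hb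
        obtain ⟨i, -, rfl⟩ := ha
        obtain ⟨j, -, rfl⟩ := hb
        exact key i j (fun e => hab (by rw [e])) hle)
      rw [Finset.card_image_of_injective _ hinj, Finset.card_range] at h1
      omega

end Pool.Agent.Y672.SP
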